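import Pool.Agent.H46.Eg.WCore

/-!
# The billiard flow of every irrational polygon is ergodic

U is a bounded connected open set whose frontier is a finite union of segments (slits and holes are
allowed), two of them at an angle which is not a rational multiple of pi.  Every measurable function
on the phase space which is invariant almost everywhere under the billiard flow is almost everywhere
constant.

Idea of the proof.  Double the phase space to a flat space with small translations T_z and rotations
of the direction.  Let L and L' be mollified derivatives d/dz and d/dzbar at scale delta, f_m the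
Fourier modes of the invariant function f in the direction.  Invariance gives L f_m = - L' f_(m+2)
(ladder), and |L F| = |L' F| for functions F vanishing near the vertices (energy identity).  The
bilinear form <L f_m, L g_m>, where g = a f and a cuts off the vertices by the two sided hitting time
of their neighbourhood at the time scale kappa / delta, is therefore almost independent of m, with an
error which tends to 0 because the translations act continuously on L2; it is square summable in m,
so it tends to 0, and |L g_m| stays bounded.  The convexity of the square of the norm then gives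
L f_m = 0 for all m, so f is locally a function of the direction; the reflections in two sides
generate an irrational rotation.
-/

set_option autoImplicit false

open MeasureTheory Metric Set Pool.H46.Bi Pool.H46.Eg

namespace Pool.Agent.Results.MP_eaca18_an.IrrationalErgodic

theorem result (U : Set ℂ) (hopen : IsOpen U) (hconn : IsConnected U)
    (hbdd : Bornology.IsBounded U)
    (hpoly : ∃ S : Finset (ℂ × ℂ), frontier U = ⋃ p ∈ S, segment ℝ p.1 p.2)
    (hirr : ∃ a b c d : ℂ, a ≠ b ∧ c ≠ d ∧ segment ℝ a b ⊆ frontier U ∧
      segment ℝ c d ⊆ frontier U ∧
      ¬ ∃ q : ℚ, Complex.arg ((b - a) / (d - c)) = (q : ℝ) * Real.pi)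
    (f : ℂ × Tor → ℝ) (hf : Measurable f)
    (hinv : ∀ (t : ℝ) (g : Mo), ∀ᵐ q : ℂ × Tor, Reach U t g q.1 q.2 → f (Phi g t q) = f q) :
    ∃ c : ℝ, ∀ᵐ q : ℂ × Tor ∂((volume : Measure (ℂ × Tor)).restrict (U ×ˢ univ)), f q = c := by
  have hP : Pool.H46.Bi.Poly U := ⟨hopen, hconn, hbdd, hpoly⟩
  obtain ⟨h, hh, hae, hr⟩ := core_weak hP hf hinv
  obtain ⟨p, α, ε, p', β, ε', hc, hc', hord⟩ := irr_charts hP hirr
  obtain ⟨c, hcst⟩ := h_const hh (hr p α ε hc) (hr p' β ε' hc') hord
  refine ⟨c, ?_⟩
  have h2 : ∀ᵐ q : ℂ × Tor ∂((volume : Measure (ℂ × Tor)).restrict (U ×ˢ univ)),
      h q.2 = c := by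
    apply ae_restrict_of_ae
    exact (Measure.quasiMeasurePreserving_snd (μ := (volume : Measure ℂ))
      (ν := (volume : Measure Tor))).ae hcst
  filter_upwards [hae, h2] with q h1 h2
  rw [h1, h2]

end Pool.Agent.Results.MP_eaca18_an.IrrationalErgodic
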